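import Pool.Agent.Helper993.TwoN.Final

set_option autoImplicit false

namespace Pool.Agent.Results.MP_041d78_al.IrreducibleOrder69

open Polynomial Matrix

/-- A real matrix realizes a zero-nonzero pattern when it is nonzero exactly at the positions
marked `true`. -/
def Realizes {n : ℕ} (A : Matrix (Fin n) (Fin n) ℝ) (Z : Matrix (Fin n) (Fin n) Bool) : Prop :=
  ∀ i j, (A i j ≠ 0 ↔ Z i j = true)

/-- A zero-nonzero pattern of order `n` is spectrally arbitrary when every monic real polynomial
of degree `n` is the characteristic polynomial of a realization. -/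
def SpectrallyArbitrary {n : ℕ} (Z : Matrix (Fin n) (Fin n) Bool) : Prop :=
  ∀ p : ℝ[X], p.Monic → p.natDegree = n →
    ∃ A : Matrix (Fin n) (Fin n) ℝ, Realizes A Z ∧ A.charpoly = p

/-- The number of nonzero entries of a pattern. -/
def numEntries {n : ℕ} (Z : Matrix (Fin n) (Fin n) Bool) : ℕ :=
  (Finset.univ.filter (fun q : Fin n × Fin n => Z q.1 q.2 = true)).card

/-- The pattern is irreducible (one strong component): every vertex can be reached from every
vertex in the digraph of the pattern. -/
def Irreducible' {n : ℕ} (Z : Matrix (Fin n) (Fin n) Bool) : Prop :=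
  ∀ i j : Fin n, Relation.ReflTransGen (fun a b => Z a b = true) i j

/-- An irreducible zero-nonzero pattern of order 69 with `2 * 69 - 1 = 137` nonzero entries is
spectrally arbitrary. -/
theorem result : ∃ Z : Matrix (Fin 69) (Fin 69) Bool,
    Irreducible' Z ∧ numEntries Z = 2 * 69 - 1 ∧ SpectrallyArbitrary Z := by
  refine ⟨fun i j => Helper993.TwoN.pat i.val j.val, ?_, ?_, ?_⟩
  · intro i j
    have h := Helper993.TwoN.A2.S_conn i j
    have e : (fun a b : Fin 69 => (a, b) ∈ Helper993.TwoN.S) =
        (fun a b : Fin 69 => Helper993.TwoN.pat a.val b.val = true) := by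
      funext a b
      simp [Helper993.TwoN.S]
    rw [e] at h
    exact h.to_reflTransGen
  · exact Helper993.TwoN.A2.S_card
  · intro p hp hd
    obtain ⟨A, h1, h2⟩ := Helper993.TwoN.realise_all p hp hd
    refine ⟨A, fun i j => ?_, h2⟩
    rw [h1 i j]
    simp [Helper993.TwoN.S]

end Pool.Agent.Results.MP_041d78_al.IrreducibleOrder69
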