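import Pool.Agent.Helper778.Real

set_option autoImplicit false

namespace Pool.Agent.Results.MP_041d78_al.RevisedBoundAttained

open Polynomial Matrix

/-! ### Definitions -/

/-- A real matrix realizes a zero-nonzero pattern when it is nonzero exactly at the positions
marked `true`. -/
def Realizes {n : ℕ} (A : Matrix (Fin n) (Fin n) ℝ) (Z : Matrix (Fin n) (Fin n) Bool) : Prop :=
  ∀ i j, (A i j ≠ 0 ↔ Z i j = true)

/-- A zero-nonzero pattern of order `n` is spectrally arbitrary when every monic real polynomial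
of degree `n` is the characteristic polynomial of a realization. -/
def SpectrallyArbitrary {n : ℕ} (Z : Matrix (Fin n) (Fin n) Bool) : Prop :=
  ∀ p : ℝ[X], p.Monic → p.natDegree = n →
    ∃ A : Matrix (Fin n) (Fin n) ℝ, Realizes A Z ∧ A.charpoly = p

/-- The number of nonzero entries of a pattern. -/
def numEntries {ι : Type} [Fintype ι] (Z : Matrix ι ι Bool) : ℕ :=
  (Finset.univ.filter (fun q : ι × ι => Z q.1 q.2 = true)).card

/-- Reachability by a directed path, of any length including zero, in the digraph of the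
pattern. -/
def Reach {ι : Type} (Z : Matrix ι ι Bool) (i j : ι) : Prop :=
  Relation.ReflTransGen (fun a b => Z a b = true) i j

/-- Two vertices are in the same strong component when each can be reached from the other. -/
def strongSetoid {ι : Type} (Z : Matrix ι ι Bool) : Setoid ι where
  r i j := Reach Z i j ∧ Reach Z j i
  iseqv := ⟨fun _ => ⟨Relation.ReflTransGen.refl, Relation.ReflTransGen.refl⟩,
    fun h => ⟨h.2, h.1⟩, fun h h' => ⟨h.1.trans h'.1, h'.2.trans h.2⟩⟩

/-- The number of irreducible components of a pattern, i.e. of strong components of its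
digraph. -/
noncomputable def numComponents {ι : Type} (Z : Matrix ι ι Bool) : ℕ :=
  Nat.card (Quotient (strongSetoid Z))

/-! ### The flexible irreducible block -/

/-- Bordered companion-like matrix: diagonal x except last y, superdiagonal -1, first column -a. -/
def W {R : Type} [CommRing R] (N : ℕ) (x y : R) (a : ℕ → R) : Matrix (Fin (N + 1)) (Fin (N + 1)) R :=
  fun i j => (if i = j then (if i.val = N then y else x) else 0)
    - (if j.val = i.val + 1 then 1 else 0) - (if j.val = 0 then a i.val else 0)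

theorem det_W_zero {R : Type} [CommRing R] (x y : R) (a : ℕ → R) :
    (W 0 x y a).det = y - a 0 := by
  simp [W]

theorem det_W_succ {R : Type} [CommRing R] (N : ℕ) (x y : R) (a : ℕ → R) :
    (W (N + 1) x y a).det = y * (W N x x a).det - a (N + 1) := by
  rw [det_succ_row _ (Fin.last (N + 1)), Fin.sum_univ_castSucc, Fin.sum_univ_succ]
  have h1 : (W (N + 1) x y a).submatrix (Fin.last (N + 1)).succAbove (Fin.last (N + 1)).succAbove
      = W N x x a := by
    ext i j
    simp only [submatrix_apply, Fin.succAbove_last, W, Fin.val_castSucc, Fin.castSucc_inj]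
    have hi : (i : ℕ) ≠ N + 1 := by omega
    by_cases hij : i = j
    · subst hij
      simp [hi]
    · simp [hij]
  have h2 : ((W (N + 1) x y a).submatrix (Fin.last (N + 1)).succAbove
      (Fin.castSucc (0 : Fin (N + 1))).succAbove).det = (-1) ^ (N + 1) := by
    rw [det_of_isLowerTriangular]
    · rw [Finset.prod_congr rfl (g := fun _ => (-1 : R))]
      · simp
      · intro i _
        simp only [submatrix_apply, Fin.succAbove_last, Fin.castSucc_zero, Fin.succAbove_zero, W,
          Fin.val_castSucc, Fin.val_succ, Fin.ext_iff]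
        rw [if_neg (by omega), if_pos trivial, if_neg (by omega)]
        simp
    · intro i j hij
      have hij' : (i : ℕ) < j := hij
      simp only [submatrix_apply, Fin.succAbove_last, Fin.castSucc_zero, Fin.succAbove_zero, W,
        Fin.val_castSucc, Fin.val_succ, Fin.ext_iff]
      rw [if_neg (by omega), if_neg (by omega), if_neg (by omega)]
      simp
  rw [h1, h2]
  have h3 : ∀ i : Fin N, (-1 : R) ^ ((Fin.last (N + 1) : ℕ) + (Fin.castSucc (Fin.succ i) : ℕ)) *
      W (N + 1) x y a (Fin.last (N + 1)) (Fin.castSucc (Fin.succ i)) *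
      ((W (N + 1) x y a).submatrix (Fin.last (N + 1)).succAbove
        (Fin.castSucc (Fin.succ i)).succAbove).det = 0 := by
    intro i
    have : W (N + 1) x y a (Fin.last (N + 1)) (Fin.castSucc (Fin.succ i)) = 0 := by
      simp only [W, Fin.ext_iff, Fin.val_last, Fin.val_castSucc, Fin.val_succ]
      have := i.isLt
      rw [if_neg (by omega), if_neg (by omega), if_neg (by omega)]
      simp
    rw [this]; ring
  rw [Finset.sum_eq_zero (fun i _ => h3 i)]
  have h4 : W (N + 1) x y a (Fin.last (N + 1)) (Fin.castSucc 0) = - a (N + 1) := by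
    simp [W, Fin.ext_iff]
  have h5 : W (N + 1) x y a (Fin.last (N + 1)) (Fin.last (N + 1)) = y := by
    simp [W]
  rw [h4, h5]
  simp only [Fin.val_last, Fin.castSucc_zero, Fin.val_zero, add_zero]
  have h6 : (-1 : R) ^ (N + 1) * (-1) ^ (N + 1) = 1 := by
    rw [← mul_pow]; simp
  have h7 : (-1 : R) ^ (N + 1 + (N + 1)) = 1 := by
    rw [pow_add, h6]
  rw [h7]
  linear_combination (-(a (N + 1))) * h6

theorem det_W_same {R : Type} [CommRing R] (N : ℕ) (x : R) (a : ℕ → R) :
    (W N x x a).det = x ^ (N + 1) - ∑ i ∈ Finset.range (N + 1), a i * x ^ (N - i) := by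
  induction N with
  | zero => rw [det_W_zero]; simp
  | succ N ih =>
    rw [det_W_succ, ih, Finset.sum_range_succ (n := N + 1), mul_sub, Finset.mul_sum]
    have : ∑ i ∈ Finset.range (N + 1), x * (a i * x ^ (N - i))
        = ∑ i ∈ Finset.range (N + 1), a i * x ^ (N + 1 - i) := by
      apply Finset.sum_congr rfl
      intro i hi
      have hi' : i < N + 1 := Finset.mem_range.1 hi
      have : N + 1 - i = (N - i) + 1 := by omega
      rw [this, pow_succ]; ring
    rw [this]
    simp
    ring

/-- The real matrix with superdiagonal ones, first column `a`, last diagonal entry `b`. -/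
def V (N : ℕ) (a : ℕ → ℝ) (b : ℝ) : Matrix (Fin (N + 2)) (Fin (N + 2)) ℝ :=
  fun i j => (if j.val = i.val + 1 then 1 else 0) + (if j.val = 0 then a i.val else 0)
    + (if i.val = N + 1 ∧ j.val = N + 1 then b else 0)

theorem charmatrix_V (N : ℕ) (a : ℕ → ℝ) (b : ℝ) :
    charmatrix (V N a b) = W (N + 1) X (X - C b) (fun i => C (a i)) := by
  ext i j : 1
  rw [charmatrix_apply]
  simp only [V, W, map_add]
  rw [diagonal_apply]
  by_cases hij : i = j
  · subst hij
    have hs : ¬ ((i : ℕ) = i + 1) := by omega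
    rw [if_neg hs, if_neg hs, if_pos rfl]
    by_cases hi : (i : ℕ) = N + 1
    · have h0 : ¬ ((i : ℕ) = 0) := by omega
      rw [if_neg h0, if_neg h0, if_pos ⟨hi, hi⟩, if_pos hi]
      simp
    · have hn : ¬ ((i : ℕ) = N + 1 ∧ (i : ℕ) = N + 1) := fun h => hi h.1
      rw [if_neg hn, if_neg hi]
      by_cases h0 : (i : ℕ) = 0
      · rw [if_pos h0, if_pos h0]; simp
      · rw [if_neg h0, if_neg h0]; simp
  · have hij' : (i : ℕ) ≠ j := fun h => hij (Fin.ext h)
    have hn : ¬ ((i : ℕ) = N + 1 ∧ (j : ℕ) = N + 1) := by omega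
    simp only [hij, hn, if_false, map_zero]
    by_cases h1 : (j : ℕ) = i + 1
    · have h0 : (j : ℕ) ≠ 0 := by omega
      simp [h1]
    · by_cases h0 : (j : ℕ) = 0
      · simp [h0]
      · simp [h1, h0]

theorem charpoly_V (N : ℕ) (a : ℕ → ℝ) (b : ℝ) :
    (V N a b).charpoly = (X - C b) * (X ^ (N + 1)
      - ∑ i ∈ Finset.range (N + 1), C (a i) * X ^ (N - i)) - C (a (N + 1)) := by
  rw [Matrix.charpoly, charmatrix_V, det_W_succ, det_W_same]

/-- Every monic real polynomial of degree at least two is the characteristic polynomial of a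
matrix of the form `V` with all its parameters nonzero. -/
theorem V_arbitrary (N : ℕ) (h : ℝ[X]) (hm : h.Monic) (hd : h.natDegree = N + 2) :
    ∃ (a : ℕ → ℝ) (b : ℝ), (∀ i, i ≤ N + 1 → a i ≠ 0) ∧ b ≠ 0 ∧ (V N a b).charpoly = h := by
  classical
  let P : ℕ → ℝ[X] := fun k => ∑ i ∈ Finset.Icc (k + 1) (N + 2), X ^ (i - (k + 1)) * C (h.coeff i)
  have hP : ∀ k, k ≤ N → P k ≠ 0 := by
    intro k hk h0
    have h1 : (P k).coeff (N + 2 - (k + 1)) = 1 := by
      simp only [P, finsetSum_coeff, coeff_mul_C, coeff_X_pow]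
      rw [Finset.sum_eq_single (N + 2)]
      · rw [if_pos rfl, one_mul, ← hd]
        exact hm.coeff_natDegree
      · intro i hi hne
        have hi' := Finset.mem_Icc.1 hi
        rw [if_neg (by omega), zero_mul]
      · intro hni
        exact absurd (Finset.mem_Icc.2 ⟨by omega, le_refl _⟩) hni
    rw [h0, coeff_zero] at h1
    exact zero_ne_one h1
  obtain ⟨b, hb⟩ := Infinite.exists_notMem_finset
    (({0} ∪ h.roots.toFinset ∪ (Finset.range (N + 1)).biUnion (fun k => (P k).roots.toFinset) :
      Finset ℝ))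
  simp only [Finset.mem_union, Finset.mem_singleton, Multiset.mem_toFinset,
    mem_roots hm.ne_zero, Finset.mem_biUnion, Finset.mem_range, not_or, not_exists,
    not_and] at hb
  obtain ⟨⟨hb0, hbh⟩, hbP⟩ := hb
  set D := h /ₘ (X - C b) with hD
  have hcoeff : ∀ k, k ≤ N → D.coeff k ≠ 0 := by
    intro k hk h0
    apply hbP k (by omega)
    rw [mem_roots (hP k hk), IsRoot]
    rw [hD, coeff_divByMonic_X_sub_C, hd] at h0
    simp only [P, eval_finsetSum, eval_mul, eval_pow, eval_X, eval_C]
    exact h0
  have hhD : h = (X - C b) * D + C (h.eval b) := by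
    have := modByMonic_add_div h (X - C b)
    rw [modByMonic_X_sub_C_eq_C_eval] at this
    rw [hD]
    linear_combination -this
  have hDm : D.Monic := by
    have := hm.leadingCoeff
    rw [hD, Monic, leadingCoeff_divByMonic_of_monic (monic_X_sub_C b) (by
      rw [degree_X_sub_C, degree_eq_natDegree hm.ne_zero, hd]
      exact_mod_cast (by omega : 1 ≤ N + 2))]
    exact this
  have hDd : D.natDegree = N + 1 := by
    rw [hD, natDegree_divByMonic _ (monic_X_sub_C b), natDegree_X_sub_C, hd]
    rfl
  refine ⟨fun i => if i ≤ N then -D.coeff (N - i) else -h.eval b, b, ?_, hb0, ?_⟩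
  · intro i hi
    by_cases hiN : i ≤ N
    · simp only [hiN, if_true]
      exact neg_ne_zero.2 (hcoeff _ (by omega))
    · simp only [hiN, if_false]
      exact neg_ne_zero.2 hbh
  · rw [charpoly_V]
    have hsum : X ^ (N + 1) - ∑ i ∈ Finset.range (N + 1),
        C ((fun i => if i ≤ N then -D.coeff (N - i) else -h.eval b) i) * X ^ (N - i) = D := by
      conv_rhs => rw [hDm.as_sum, hDd]
      rw [sub_eq_add_neg, ← Finset.sum_neg_distrib]
      congr 1
      rw [← Finset.sum_range_reflect (fun i => C (D.coeff i) * X ^ i)]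
      apply Finset.sum_congr rfl
      intro i hi
      have hi' : i ≤ N := by have := Finset.mem_range.1 hi; omega
      have e : N + 1 - 1 - i = N - i := by omega
      simp only [hi', if_true, e]
      simp
    rw [hsum]
    simp only [show ¬ (N + 1 ≤ N) by omega, if_false, map_neg, sub_neg_eq_add]
    exact hhD.symm

/-- The pattern of the flexible block of order ten, with twenty nonzero entries. -/
def ZV : Matrix (Fin 10) (Fin 10) Bool :=
  fun i j => decide (j.val = i.val + 1) || decide (j.val = 0) || decide (i.val = 9 ∧ j.val = 9)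

theorem ZV_arbitrary (h : ℝ[X]) (hh : IsMonicOfDegree h 10) :
    ∃ M : Matrix (Fin 10) (Fin 10) ℝ, (∀ i j, (M i j ≠ 0 ↔ ZV i j = true)) ∧
      M.charpoly = h := by
  obtain ⟨a, b, ha, hb, hc⟩ := V_arbitrary 8 h hh.monic hh.natDegree_eq
  refine ⟨V 8 a b, ?_, hc⟩
  intro i j
  have hai := ha i.val (by omega)
  simp only [V, ZV, Bool.or_eq_true, decide_eq_true_eq]
  by_cases h1 : (j : ℕ) = i + 1
  · have h0 : ¬ ((j : ℕ) = 0) := by omega
    have h9 : ¬ ((i : ℕ) = 8 + 1 ∧ (j : ℕ) = 8 + 1) := by omega
    rw [if_pos h1, if_neg h0, if_neg h9]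
    simp [h1]
  · by_cases h0 : (j : ℕ) = 0
    · have h9 : ¬ ((i : ℕ) = 8 + 1 ∧ (j : ℕ) = 8 + 1) := by omega
      rw [if_neg h1, if_pos h0, if_neg h9]
      simp [h0, hai]
    · by_cases h9 : (i : ℕ) = 8 + 1 ∧ (j : ℕ) = 8 + 1
      · rw [if_neg h1, if_neg h0, if_pos h9]
        simp [hb, h9]
      · rw [if_neg h1, if_neg h0, if_neg h9]
        have h9' : ¬ ((i : ℕ) = 9 ∧ (j : ℕ) = 9) := h9
        simp [h1, h0, h9']

/-! ### Extraction of factors realized by the deficient block -/

open Helper778.Real in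
/-- Every monic real polynomial of degree at least sixteen has a monic factor of degree six that
is realized by the pattern `Z6`. -/
theorem extract (p : ℝ[X]) (hp : p.Monic) (hd : 16 ≤ p.natDegree) :
    ∃ g h : ℝ[X], IsMonicOfDegree g 6 ∧ p = g * h ∧
      ∃ M : Matrix (Fin 6) (Fin 6) ℝ, (∀ i j, (M i j ≠ 0 ↔ Z6 i j = true)) ∧
        M.charpoly = g := by
  have hquad : ∀ r : ℝ × ℝ, IsMonicOfDegree (quad r) 2 := fun r =>
    ⟨quad_natDegree r, quad_monic r⟩
  obtain ⟨A, B, U, V, m, hA, hB, hU, hV, hU1, hV1, hpe⟩ := decomposition _ p hp rfl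
  have hcount : 2 * A.length + 2 * B.length + U.length + V.length + m = p.natDegree := by
    rw [hpe, ((((quads_monic A).mul (quads_monic B)).mul (lins_monic U)).mul
      (lins_monic V)).natDegree_mul (monic_X_pow m),
      (((quads_monic A).mul (quads_monic B)).mul (lins_monic U)).natDegree_mul (lins_monic V),
      ((quads_monic A).mul (quads_monic B)).natDegree_mul (lins_monic U),
      (quads_monic A).natDegree_mul (quads_monic B), quads_natDegree, quads_natDegree,
      lins_natDegree, lins_natDegree, natDegree_X_pow]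
  have hcases : 3 ≤ A.length ∨ 3 ≤ B.length ∨ 6 ≤ m := by omega
  rcases hcases with h | h | h
  · match A, hA, h, hpe with
    | r :: s :: q :: A', hA, _, hpe =>
      refine ⟨quad r * quad s * quad q, (A'.map quad).prod * (B.map quad).prod *
        (U.map lin).prod * (V.map lin).prod * X ^ m, ((hquad r).mul (hquad s)).mul (hquad q),
        ?_, block_left r s q (hA r (by simp)) (hA s (by simp)) (hA q (by simp))⟩
      rw [hpe]
      simp only [List.map_cons, List.prod_cons]
      ring
  · match B, hB, h, hpe with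
    | r :: s :: q :: B', hB, _, hpe =>
      refine ⟨quad r * quad s * quad q, (A.map quad).prod * (B'.map quad).prod *
        (U.map lin).prod * (V.map lin).prod * X ^ m, ((hquad r).mul (hquad s)).mul (hquad q),
        ?_, block_right r s q (hB r (by simp)) (hB s (by simp)) (hB q (by simp))⟩
      rw [hpe]
      simp only [List.map_cons, List.prod_cons]
      ring
  · obtain ⟨m', rfl⟩ := Nat.exists_eq_add_of_le h
    refine ⟨X ^ 6, (A.map quad).prod * (B.map quad).prod *
        (U.map lin).prod * (V.map lin).prod * X ^ m', ⟨by simp, monic_X_pow 6⟩, ?_, block_zero⟩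
    rw [hpe, pow_add]
    ring

open Helper778.Real in
theorem extract_many (k : ℕ) : ∀ p : ℝ[X], IsMonicOfDegree p (6 * k + 10) →
    ∃ (M : Fin k → Matrix (Fin 6) (Fin 6) ℝ) (h : ℝ[X]),
      (∀ t i j, (M t i j ≠ 0 ↔ Z6 i j = true)) ∧ IsMonicOfDegree h 10 ∧
      p = (∏ t, (M t).charpoly) * h := by
  induction k with
  | zero =>
    intro p hp
    exact ⟨fun t => t.elim0, p, fun t => t.elim0, by simpa using hp, by simp⟩
  | succ k ih =>
    intro p hp
    obtain ⟨g, h, hg, hgh, M0, hM0, hM0c⟩ := extract p hp.monic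
      (by rw [hp.natDegree_eq]; omega)
    have hh : IsMonicOfDegree h (6 * k + 10) := by
      apply IsMonicOfDegree.of_mul_left hg
      rw [← hgh]
      have : 6 + (6 * k + 10) = 6 * (k + 1) + 10 := by ring
      rw [this]
      exact hp
    obtain ⟨M, h', hM, hh', hp'⟩ := ih h hh
    refine ⟨Fin.cons M0 M, h', ?_, hh', ?_⟩
    · intro t
      refine Fin.cases ?_ ?_ t
      · simpa using hM0
      · intro t'; simpa using hM t'
    · rw [Fin.prod_univ_succ, hgh, hp']
      simp only [Fin.cons_zero, Fin.cons_succ, hM0c]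
      ring

/-! ### The direct sum -/

/-- The pattern of the direct sum of `k` copies of `Z6` and one copy of `ZV`. -/
def ZS (k : ℕ) : Matrix ((Fin 6 × Fin k) ⊕ Fin 10) ((Fin 6 × Fin k) ⊕ Fin 10) Bool
  | Sum.inl i, Sum.inl j => decide (i.2 = j.2) && Helper778.Real.Z6 i.1 j.1
  | Sum.inr i, Sum.inr j => ZV i j
  | _, _ => false

theorem ZS_arbitrary (k : ℕ) (p : ℝ[X]) (hp : IsMonicOfDegree p (6 * k + 10)) :
    ∃ A : Matrix ((Fin 6 × Fin k) ⊕ Fin 10) ((Fin 6 × Fin k) ⊕ Fin 10) ℝ,
      (∀ i j, (A i j ≠ 0 ↔ ZS k i j = true)) ∧ A.charpoly = p := by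
  obtain ⟨M, h, hM, hh, hpe⟩ := extract_many k p hp
  obtain ⟨N, hN, hNc⟩ := ZV_arbitrary h hh
  refine ⟨fromBlocks (blockDiagonal M) 0 0 N, ?_, ?_⟩
  · rintro (⟨i, s⟩ | i) (⟨j, t⟩ | j)
    · by_cases hst : s = t
      · subst hst
        simpa [ZS, blockDiagonal_apply] using hM s i j
      · simp [ZS, blockDiagonal_apply, hst]
    · simp [ZS]
    · simp [ZS]
    · simpa [ZS] using hN i j
  · rw [charpoly_fromBlocks_zero₁₂, Helper778.Real.charpoly_blockDiag, hNc, hpe]

/-- The index equivalence. -/
def idx (k : ℕ) : (Fin 6 × Fin k) ⊕ Fin 10 ≃ Fin (6 * k + 10) :=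
  (Equiv.sumCongr (finProdFinEquiv (m := 6) (n := k)) (Equiv.refl (Fin 10))).trans
    finSumFinEquiv

/-- The pattern as a pattern of order `6 * k + 10`. -/
def Z (k : ℕ) : Matrix (Fin (6 * k + 10)) (Fin (6 * k + 10)) Bool :=
  (ZS k).reindex (idx k) (idx k)

theorem Z_arbitrary (k : ℕ) : SpectrallyArbitrary (Z k) := by
  intro p hp hd
  obtain ⟨M, hM, hMc⟩ := ZS_arbitrary k p ⟨hd, hp⟩
  refine ⟨M.reindex (idx k) (idx k), ?_, ?_⟩
  · intro i j
    exact hM ((idx k).symm i) ((idx k).symm j)
  · rw [charpoly_reindex, hMc]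

/-! ### Counting entries and components -/

theorem numEntries_reindex {ι κ : Type} [Fintype ι] [Fintype κ] (e : ι ≃ κ)
    (Y : Matrix ι ι Bool) : numEntries (Y.reindex e e) = numEntries Y := by
  unfold numEntries
  apply Finset.card_bij' (fun q _ => (e.symm q.1, e.symm q.2)) (fun q _ => (e q.1, e q.2))
  · intro q hq
    exact Finset.mem_filter.2 ⟨Finset.mem_univ _, (Finset.mem_filter.1 hq).2⟩
  · intro q hq
    refine Finset.mem_filter.2 ⟨Finset.mem_univ _, ?_⟩
    have := (Finset.mem_filter.1 hq).2
    simpa using this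
  · intro q _; simp
  · intro q _; simp

theorem numEntries_ZS (k : ℕ) : numEntries (ZS k) = 11 * k + 20 := by
  unfold numEntries
  have h6 : ∑ i : Fin 6, ∑ j : Fin 6, (if Helper778.Real.Z6 i j = true then 1 else 0) = 11 := by
    decide +kernel
  have h10 : ∑ i : Fin 10, ∑ j : Fin 10, (if ZV i j = true then 1 else 0) = 20 := by
    decide +kernel
  rw [Finset.card_filter, Fintype.sum_prod_type, Fintype.sum_sum_type]
  simp only [Fintype.sum_sum_type, Fintype.sum_prod_type]
  have e1 : ∀ (i : Fin 6) (s : Fin k) (j : Fin 6),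
      ∑ t : Fin k, (if ZS k (Sum.inl (i, s)) (Sum.inl (j, t)) = true then 1 else 0)
      = (if Helper778.Real.Z6 i j = true then 1 else 0) := by
    intro i s j
    rw [Finset.sum_eq_single s]
    · simp [ZS]
    · intro t _ hts
      simp [ZS, Ne.symm hts]
    · intro h; exact absurd (Finset.mem_univ s) h
  simp only [e1]
  have e2 : ∀ (i : Fin 6) (s : Fin k),
      ∑ j : Fin 10, (if ZS k (Sum.inl (i, s)) (Sum.inr j) = true then 1 else 0) = 0 := by
    intro i s; simp [ZS]
  have e3 : ∀ (i : Fin 10),
      ∑ j : Fin 6, ∑ t : Fin k, (if ZS k (Sum.inr i) (Sum.inl (j, t)) = true then 1 else 0)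
        = 0 := by
    intro i; simp [ZS]
  simp only [e2, e3, add_zero, zero_add]
  have e4 : ∀ (i j : Fin 10), (if ZS k (Sum.inr i) (Sum.inr j) = true then 1 else 0)
      = (if ZV i j = true then 1 else 0) := by
    intro i j; rfl
  simp only [e4, h10]
  rw [Finset.sum_comm]
  simp only [h6]
  simp
  ring

theorem numComponents_reindex {ι κ : Type} (e : ι ≃ κ) (Y : Matrix ι ι Bool) :
    numComponents (Y.reindex e e) = numComponents Y := by
  unfold numComponents
  have key : ∀ i j, Reach Y i j → Reach (Y.reindex e e) (e i) (e j) := by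
    intro i j h
    induction h with
    | refl => exact Relation.ReflTransGen.refl
    | tail _ hbc ih => exact ih.tail (by simpa using hbc)
  have key' : ∀ i j, Reach (Y.reindex e e) i j → Reach Y (e.symm i) (e.symm j) := by
    intro i j h
    induction h with
    | refl => exact Relation.ReflTransGen.refl
    | tail _ hbc ih => exact ih.tail (by simpa using hbc)
  apply Nat.card_congr
  refine Quotient.congr e.symm ?_
  intro i j
  constructor
  · rintro ⟨h, h'⟩
    exact ⟨key' _ _ h, key' _ _ h'⟩
  · rintro ⟨h, h'⟩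
    have h1 := key _ _ h
    have h2 := key _ _ h'
    simp only [Equiv.apply_symm_apply] at h1 h2
    exact ⟨h1, h2⟩

theorem Z6_to_two (i : Fin 6) : Reach Helper778.Real.Z6 i 2 := by
  have e02 : Reach Helper778.Real.Z6 3 2 := Relation.ReflTransGen.single (by decide)
  have e5 : Reach Helper778.Real.Z6 5 2 := Relation.ReflTransGen.single (by decide)
  fin_cases i
  · exact Relation.ReflTransGen.head (b := 3) (by decide) e02
  · exact Relation.ReflTransGen.head (b := 5) (by decide) e5
  · exact Relation.ReflTransGen.refl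
  · exact e02
  · exact Relation.ReflTransGen.single (by decide)
  · exact e5

theorem Z6_from_two (i : Fin 6) : Reach Helper778.Real.Z6 2 i := by
  have e0 : Reach Helper778.Real.Z6 2 0 := Relation.ReflTransGen.single (by decide)
  have e3 : Reach Helper778.Real.Z6 2 3 := e0.tail (by decide)
  have e1 : Reach Helper778.Real.Z6 2 1 := e3.tail (by decide)
  fin_cases i
  · exact e0
  · exact e1
  · exact Relation.ReflTransGen.refl
  · exact e3
  · exact Relation.ReflTransGen.single (by decide)
  · exact e1.tail (by decide)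

theorem ZV_to_zero (i : Fin 10) : Reach ZV i 0 :=
  Relation.ReflTransGen.single (by simp [ZV])

theorem ZV_from_zero (n : ℕ) (hn : n < 10) : Reach ZV 0 ⟨n, hn⟩ := by
  induction n with
  | zero => exact Relation.ReflTransGen.refl
  | succ n ih =>
    exact (ih (by omega)).tail (by simp [ZV])

/-- The block to which an index belongs. -/
def blk (k : ℕ) : (Fin 6 × Fin k) ⊕ Fin 10 → Option (Fin k)
  | Sum.inl i => some i.2
  | Sum.inr _ => none

theorem reach_blk (k : ℕ) (i j : (Fin 6 × Fin k) ⊕ Fin 10) (h : Reach (ZS k) i j) :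
    blk k i = blk k j := by
  induction h with
  | refl => rfl
  | @tail b c _ hbc ih =>
    rw [ih]
    rcases b with ⟨b, s⟩ | b <;> rcases c with ⟨c, t⟩ | c
    · simp only [ZS, Bool.and_eq_true, decide_eq_true_eq] at hbc
      simp [blk, hbc.1]
    · simp [ZS] at hbc
    · simp [ZS] at hbc
    · rfl

theorem blk_reach (k : ℕ) (i j : (Fin 6 × Fin k) ⊕ Fin 10) (h : blk k i = blk k j) :
    Reach (ZS k) i j := by
  rcases i with ⟨i, s⟩ | i <;> rcases j with ⟨j, t⟩ | j
  · simp only [blk, Option.some.injEq] at h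
    subst h
    have : Reach Helper778.Real.Z6 i j := (Z6_to_two i).trans (Z6_from_two j)
    exact Relation.ReflTransGen.lift (fun x : Fin 6 => (Sum.inl (x, s) :
      (Fin 6 × Fin k) ⊕ Fin 10)) (fun a b hab => by simpa [ZS, Function.onFun] using hab) _ _ this
  · simp [blk] at h
  · simp [blk] at h
  · have : Reach ZV i j := (ZV_to_zero i).trans (ZV_from_zero j.val j.isLt)
    exact Relation.ReflTransGen.lift (fun x : Fin 10 => (Sum.inr x :
      (Fin 6 × Fin k) ⊕ Fin 10)) (fun a b hab => by simpa [ZS, Function.onFun] using hab) _ _ this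

theorem numComponents_ZS (k : ℕ) : numComponents (ZS k) = k + 1 := by
  unfold numComponents
  have e : Quotient (strongSetoid (ZS k)) ≃ Option (Fin k) := by
    refine Equiv.ofBijective (Quotient.lift (blk k) (fun i j h => reach_blk k i j h.1)) ⟨?_, ?_⟩
    · intro x y
      refine Quotient.inductionOn₂ x y ?_
      intro i j hij
      exact Quotient.sound ⟨blk_reach k i j hij, blk_reach k j i hij.symm⟩
    · intro y
      rcases y with _ | t
      · exact ⟨Quotient.mk _ (Sum.inr 0), rfl⟩
      · exact ⟨Quotient.mk _ (Sum.inl (0, t)), rfl⟩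
  rw [Nat.card_congr e]
  simp

/-- For every `c ≥ 1` there is a spectrally arbitrary zero-nonzero pattern with exactly `c`
irreducible components and exactly `2 * n - c + 1` nonzero entries. -/
theorem result : ∀ c : ℕ, 1 ≤ c → ∃ (n : ℕ) (Y : Matrix (Fin n) (Fin n) Bool),
    SpectrallyArbitrary Y ∧ numComponents Y = c ∧ numEntries Y + c = 2 * n + 1 := by
  intro c hc
  obtain ⟨k, rfl⟩ := Nat.exists_eq_add_of_le hc
  refine ⟨6 * k + 10, Z k, Z_arbitrary k, ?_, ?_⟩
  · rw [Z, numComponents_reindex, numComponents_ZS, add_comm]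
  · rw [Z, numEntries_reindex, numEntries_ZS]
    ring

end Pool.Agent.Results.MP_041d78_al.RevisedBoundAttained
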