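import Pool.Agent.Helper778.SapNormal

set_option autoImplicit false
set_option maxHeartbeats 4000000

namespace Pool.Agent.Results.MP_041d78_al.RevisedConjectureFails

open Polynomial Matrix

/-! ### Definitions -/

/-- A real matrix realizes a zero-nonzero pattern when it is nonzero exactly at the positions
marked `true`. -/
def Realizes {n : ℕ} (A : Matrix (Fin n) (Fin n) ℝ) (Z : Matrix (Fin n) (Fin n) Bool) : Prop :=
  ∀ i j, (A i j ≠ 0 ↔ Z i j = true)

/-- A zero-nonzero pattern of order `n` is spectrally arbitrary when every monic real polynomial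
of degree `n` is the characteristic polynomial of a realization. -/
def SpectrallyArbitrary {n : ℕ} (Z : Matrix (Fin n) (Fin n) Bool) : Prop :=
  ∀ p : ℝ[X], p.Monic → p.natDegree = n →
    ∃ A : Matrix (Fin n) (Fin n) ℝ, Realizes A Z ∧ A.charpoly = p

/-- The number of nonzero entries of a pattern. -/
def numEntries {ι : Type} [Fintype ι] (Z : Matrix ι ι Bool) : ℕ :=
  (Finset.univ.filter (fun q : ι × ι => Z q.1 q.2 = true)).card

/-- Reachability by a directed path, of any length including zero, in the digraph of the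
pattern. -/
def Reach {ι : Type} (Z : Matrix ι ι Bool) (i j : ι) : Prop :=
  Relation.ReflTransGen (fun a b => Z a b = true) i j

/-- Two vertices are in the same strong component when each can be reached from the other. -/
def strongSetoid {ι : Type} (Z : Matrix ι ι Bool) : Setoid ι where
  r i j := Reach Z i j ∧ Reach Z j i
  iseqv := ⟨fun _ => ⟨Relation.ReflTransGen.refl, Relation.ReflTransGen.refl⟩,
    fun h => ⟨h.2, h.1⟩, fun h h' => ⟨h.1.trans h'.1, h'.2.trans h.2⟩⟩

/-- The number of irreducible components of a pattern, i.e. of strong components of its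
digraph. -/
noncomputable def numComponents {ι : Type} (Z : Matrix ι ι Bool) : ℕ :=
  Nat.card (Quotient (strongSetoid Z))

/-! ### The direct sum -/

/-- The pattern of the direct sum of `k` blocks of order six and six blocks of order eight. -/
def ZS (k : ℕ) : Matrix ((Fin 6 × Fin k) ⊕ (Fin 8 × Fin 6)) ((Fin 6 × Fin k) ⊕ (Fin 8 × Fin 6))
    Bool
  | Sum.inl i, Sum.inl j => decide (i.2 = j.2) && Helper778.Real.Z6 i.1 j.1
  | Sum.inr i, Sum.inr j => decide (i.2 = j.2) && Helper778.Sap.P8 i.2 i.1 j.1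
  | _, _ => false

theorem ZS_arbitrary (k : ℕ) (hk : 26 ≤ k) (p : ℝ[X]) (hp : IsMonicOfDegree p (6 * k + 48)) :
    ∃ A : Matrix ((Fin 6 × Fin k) ⊕ (Fin 8 × Fin 6)) ((Fin 6 × Fin k) ⊕ (Fin 8 × Fin 6)) ℝ,
      (∀ i j, (A i j ≠ 0 ↔ ZS k i j = true)) ∧ A.charpoly = p := by
  obtain ⟨M, N, q, g, hM, hN, hq, hg, hpe⟩ := Helper778.Sap.families k hk p hp
  have hNc : (blockDiagonal N).charpoly = ∏ t, g t := by
    rw [Helper778.Real.charpoly_blockDiag]
    exact Finset.prod_congr rfl (fun t _ => hg t)
  have hMc : (blockDiagonal M).charpoly = q := by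
    rw [Helper778.Real.charpoly_blockDiag]
    exact hq
  refine ⟨fromBlocks (blockDiagonal M) 0 0 (blockDiagonal N), ?_, ?_⟩
  · rintro (⟨i, s⟩ | ⟨i, s⟩) (⟨j, t⟩ | ⟨j, t⟩)
    · by_cases hst : s = t
      · subst hst
        simpa [ZS, blockDiagonal_apply] using hM s i j
      · simp [ZS, blockDiagonal_apply, hst]
    · simp [ZS]
    · simp [ZS]
    · by_cases hst : s = t
      · subst hst
        simpa [ZS, blockDiagonal_apply] using hN s i j
      · simp [ZS, blockDiagonal_apply, hst]
  · rw [charpoly_fromBlocks_zero₁₂, hMc, hNc, hpe]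

/-- The index equivalence. -/
def idx (k : ℕ) : (Fin 6 × Fin k) ⊕ (Fin 8 × Fin 6) ≃ Fin (6 * k + 48) :=
  (Equiv.sumCongr (finProdFinEquiv (m := 6) (n := k)) (finProdFinEquiv (m := 8) (n := 6))).trans
    finSumFinEquiv

/-- The pattern as a pattern of order `6 * k + 48`. -/
def Z (k : ℕ) : Matrix (Fin (6 * k + 48)) (Fin (6 * k + 48)) Bool :=
  (ZS k).reindex (idx k) (idx k)

theorem Z_arbitrary (k : ℕ) (hk : 26 ≤ k) : SpectrallyArbitrary (Z k) := by
  intro p hp hd
  obtain ⟨M, hM, hMc⟩ := ZS_arbitrary k hk p ⟨hd, hp⟩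
  refine ⟨M.reindex (idx k) (idx k), ?_, ?_⟩
  · intro i j
    exact hM ((idx k).symm i) ((idx k).symm j)
  · rw [charpoly_reindex, hMc]

/-! ### Counting entries and components -/

theorem numEntries_reindex {ι κ : Type} [Fintype ι] [Fintype κ] (e : ι ≃ κ)
    (Y : Matrix ι ι Bool) : numEntries (Y.reindex e e) = numEntries Y := by
  unfold numEntries
  apply Finset.card_bij' (fun q _ => (e.symm q.1, e.symm q.2)) (fun q _ => (e q.1, e q.2))
  · intro q hq
    exact Finset.mem_filter.2 ⟨Finset.mem_univ _, (Finset.mem_filter.1 hq).2⟩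
  · intro q hq
    refine Finset.mem_filter.2 ⟨Finset.mem_univ _, ?_⟩
    have := (Finset.mem_filter.1 hq).2
    simpa using this
  · intro q _; simp
  · intro q _; simp

theorem numEntries_ZS (k : ℕ) : numEntries (ZS k) = 11 * k + 90 := by
  unfold numEntries
  have h6 : ∑ i : Fin 6, ∑ j : Fin 6, (if Helper778.Real.Z6 i j = true then 1 else 0) = 11 := by
    decide +kernel
  have h8 : ∀ s : Fin 6, ∑ i : Fin 8, ∑ j : Fin 8,
      (if Helper778.Sap.P8 s i j = true then 1 else 0) = 15 := by
    decide +kernel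
  rw [Finset.card_filter, Fintype.sum_prod_type, Fintype.sum_sum_type]
  simp only [Fintype.sum_sum_type, Fintype.sum_prod_type]
  have e1 : ∀ (i : Fin 6) (s : Fin k) (j : Fin 6),
      ∑ t : Fin k, (if ZS k (Sum.inl (i, s)) (Sum.inl (j, t)) = true then 1 else 0)
      = (if Helper778.Real.Z6 i j = true then 1 else 0) := by
    intro i s j
    rw [Finset.sum_eq_single s]
    · simp [ZS]
    · intro t _ hts
      simp [ZS, Ne.symm hts]
    · intro h; exact absurd (Finset.mem_univ s) h
  have e1' : ∀ (i : Fin 8) (s : Fin 6) (j : Fin 8),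
      ∑ t : Fin 6, (if ZS k (Sum.inr (i, s)) (Sum.inr (j, t)) = true then 1 else 0)
      = (if Helper778.Sap.P8 s i j = true then 1 else 0) := by
    intro i s j
    rw [Finset.sum_eq_single s]
    · simp [ZS]
    · intro t _ hts
      simp [ZS, Ne.symm hts]
    · intro h; exact absurd (Finset.mem_univ s) h
  have e2 : ∀ (i : Fin 6) (s : Fin k),
      ∑ j : Fin 8, ∑ t : Fin 6, (if ZS k (Sum.inl (i, s)) (Sum.inr (j, t)) = true then 1 else 0)
        = 0 := by
    intro i s; simp [ZS]
  have e3 : ∀ (i : Fin 8) (s : Fin 6),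
      ∑ j : Fin 6, ∑ t : Fin k, (if ZS k (Sum.inr (i, s)) (Sum.inl (j, t)) = true then 1 else 0)
        = 0 := by
    intro i s; simp [ZS]
  simp only [e1, e1', e2, e3, add_zero, zero_add]
  rw [Finset.sum_comm, Finset.sum_comm (s := (Finset.univ : Finset (Fin 8)))
    (t := (Finset.univ : Finset (Fin 6)))]
  simp only [h6, h8]
  simp
  ring

theorem numComponents_reindex {ι κ : Type} (e : ι ≃ κ) (Y : Matrix ι ι Bool) :
    numComponents (Y.reindex e e) = numComponents Y := by
  unfold numComponents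
  have key : ∀ i j, Reach Y i j → Reach (Y.reindex e e) (e i) (e j) := by
    intro i j h
    induction h with
    | refl => exact Relation.ReflTransGen.refl
    | tail _ hbc ih => exact ih.tail (by simpa using hbc)
  have key' : ∀ i j, Reach (Y.reindex e e) i j → Reach Y (e.symm i) (e.symm j) := by
    intro i j h
    induction h with
    | refl => exact Relation.ReflTransGen.refl
    | tail _ hbc ih => exact ih.tail (by simpa using hbc)
  apply Nat.card_congr
  refine Quotient.congr e.symm ?_
  intro i j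
  constructor
  · rintro ⟨h, h'⟩
    exact ⟨key' _ _ h, key' _ _ h'⟩
  · rintro ⟨h, h'⟩
    have h1 := key _ _ h
    have h2 := key _ _ h'
    simp only [Equiv.apply_symm_apply] at h1 h2
    exact ⟨h1, h2⟩

/-- A list of vertices starting at `a` is a walk. -/
def isWalk {ι : Type} (Y : Matrix ι ι Bool) : ι → List ι → Bool
  | _, [] => true
  | a, b :: l => Y a b && isWalk Y b l

/-- The last vertex of a walk. -/
def lastOf {ι : Type} : ι → List ι → ι
  | a, [] => a
  | _, b :: l => lastOf b l

/-- Reachability along a walk. -/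
theorem reach_walk {ι : Type} (Y : Matrix ι ι Bool) (l : List ι) : ∀ a : ι,
    isWalk Y a l = true → ∀ x ∈ a :: l, Reach Y a x ∧ Reach Y x (lastOf a l) := by
  induction l with
  | nil =>
    intro a _ x hx
    have : x = a := by simpa using hx
    subst this
    exact ⟨Relation.ReflTransGen.refl, Relation.ReflTransGen.refl⟩
  | cons b l ih =>
    intro a h x hx
    have h' : Y a b = true ∧ isWalk Y b l = true := by
      simpa [isWalk] using h
    obtain ⟨hab, hbl⟩ := h'
    show Reach Y a x ∧ Reach Y x (lastOf b l)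
    rcases List.mem_cons.1 hx with rfl | hx
    · exact ⟨Relation.ReflTransGen.refl, ((ih b hbl b (by simp)).2).head hab⟩
    · exact ⟨((ih b hbl x hx).1).head hab, (ih b hbl x hx).2⟩

/-- A closed walk through all vertices proves strong connectedness. -/
theorem reach_of_walk {ι : Type} (Y : Matrix ι ι Bool) (a : ι) (l : List ι)
    (h : isWalk Y a l = true) (hlast : lastOf a l = a) (hall : ∀ x, x ∈ a :: l) :
    ∀ i j, Reach Y i j := by
  intro i j
  have h1 := (reach_walk Y l a h i (hall i)).2
  rw [hlast] at h1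
  exact h1.trans (reach_walk Y l a h j (hall j)).1

theorem Z6_reach : ∀ i j, Reach Helper778.Real.Z6 i j :=
  reach_of_walk _ 0 [3, 1, 5, 2, 4, 2, 0] (by decide) (by decide) (by decide)

theorem ZB_reach : ∀ i j, Reach Helper778.Sap.ZB i j :=
  reach_of_walk _ 0 [2, 3, 1, 4, 5, 6, 7, 0] (by decide) (by decide) (by decide)

theorem ZT_reach : ∀ i j, Reach Helper778.Sap.ZT i j :=
  reach_of_walk _ 0 [1, 5, 2, 7, 6, 4, 3, 1, 0] (by decide) (by decide) (by decide)

theorem ZJ_reach : ∀ i j, Reach Helper778.Sap.ZJ i j :=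
  reach_of_walk _ 0 [6, 2, 1, 3, 4, 7, 5, 6, 0] (by decide) (by decide) (by decide)

theorem P8_reach (t : Fin 6) : ∀ i j, Reach (Helper778.Sap.P8 t) i j := by
  fin_cases t
  · exact ZB_reach
  · exact ZB_reach
  · exact ZB_reach
  · exact ZT_reach
  · exact ZT_reach
  · exact ZJ_reach

/-- The block to which an index belongs. -/
def blk (k : ℕ) : (Fin 6 × Fin k) ⊕ (Fin 8 × Fin 6) → Fin k ⊕ Fin 6
  | Sum.inl i => Sum.inl i.2
  | Sum.inr i => Sum.inr i.2

theorem reach_blk (k : ℕ) (i j : (Fin 6 × Fin k) ⊕ (Fin 8 × Fin 6)) (h : Reach (ZS k) i j) :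
    blk k i = blk k j := by
  induction h with
  | refl => rfl
  | @tail b c _ hbc ih =>
    rw [ih]
    rcases b with ⟨b, s⟩ | ⟨b, s⟩ <;> rcases c with ⟨c, t⟩ | ⟨c, t⟩
    · simp only [ZS, Bool.and_eq_true, decide_eq_true_eq] at hbc
      simp [blk, hbc.1]
    · simp [ZS] at hbc
    · simp [ZS] at hbc
    · simp only [ZS, Bool.and_eq_true, decide_eq_true_eq] at hbc
      simp [blk, hbc.1]

theorem blk_reach (k : ℕ) (i j : (Fin 6 × Fin k) ⊕ (Fin 8 × Fin 6)) (h : blk k i = blk k j) :
    Reach (ZS k) i j := by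
  rcases i with ⟨i, s⟩ | ⟨i, s⟩ <;> rcases j with ⟨j, t⟩ | ⟨j, t⟩
  · simp only [blk, Sum.inl.injEq] at h
    subst h
    exact Relation.ReflTransGen.lift (fun x : Fin 6 => (Sum.inl (x, s) :
      (Fin 6 × Fin k) ⊕ (Fin 8 × Fin 6))) (fun a b hab => by simpa [ZS, Function.onFun] using hab)
      _ _ (Z6_reach i j)
  · simp [blk] at h
  · simp [blk] at h
  · simp only [blk, Sum.inr.injEq] at h
    subst h
    exact Relation.ReflTransGen.lift (fun x : Fin 8 => (Sum.inr (x, s) :
      (Fin 6 × Fin k) ⊕ (Fin 8 × Fin 6))) (fun a b hab => by simpa [ZS, Function.onFun] using hab)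
      _ _ (P8_reach s i j)

theorem numComponents_ZS (k : ℕ) : numComponents (ZS k) = k + 6 := by
  unfold numComponents
  have e : Quotient (strongSetoid (ZS k)) ≃ Fin k ⊕ Fin 6 := by
    refine Equiv.ofBijective (Quotient.lift (blk k) (fun i j h => reach_blk k i j h.1)) ⟨?_, ?_⟩
    · intro x y
      refine Quotient.inductionOn₂ x y ?_
      intro i j hij
      exact Quotient.sound ⟨blk_reach k i j hij, blk_reach k j i hij.symm⟩
    · intro y
      rcases y with t | t
      · exact ⟨Quotient.mk _ (Sum.inl (0, t)), rfl⟩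
      · exact ⟨Quotient.mk _ (Sum.inr (0, t)), rfl⟩
  rw [Nat.card_congr e]
  simp

/-- For every `c ≥ 32` there is a spectrally arbitrary zero-nonzero pattern with exactly `c`
irreducible components and exactly `2 * n - c` nonzero entries; in particular the assertion that
every spectrally arbitrary zero-nonzero pattern of order `n` with `c` irreducible components has
at least `2 * n - c + 1` nonzero entries is false. -/
theorem result :
    (∀ c : ℕ, 32 ≤ c → ∃ (n : ℕ) (Y : Matrix (Fin n) (Fin n) Bool),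
      SpectrallyArbitrary Y ∧ numComponents Y = c ∧ numEntries Y + c = 2 * n) ∧
    ¬ ∀ (n : ℕ) (Y : Matrix (Fin n) (Fin n) Bool), SpectrallyArbitrary Y →
      2 * n + 1 ≤ numEntries Y + numComponents Y := by
  have h1 : ∀ c : ℕ, 32 ≤ c → ∃ (n : ℕ) (Y : Matrix (Fin n) (Fin n) Bool),
      SpectrallyArbitrary Y ∧ numComponents Y = c ∧ numEntries Y + c = 2 * n := by
    intro c hc
    obtain ⟨k, rfl⟩ : ∃ k, c = k + 6 := ⟨c - 6, by omega⟩
    refine ⟨6 * k + 48, Z k, Z_arbitrary k (by omega), ?_, ?_⟩
    · rw [Z, numComponents_reindex, numComponents_ZS]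
    · rw [Z, numEntries_reindex, numEntries_ZS]
      ring
  refine ⟨h1, ?_⟩
  intro h
  obtain ⟨n, Y, hY, hc, he⟩ := h1 32 le_rfl
  have := h n Y hY
  omega

end Pool.Agent.Results.MP_041d78_al.RevisedConjectureFails
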